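import Pool.Agent.H494_RB.AmnP

/-!
# The Alperin–McKay–Navarro conjecture reduces to Galois-stable blocks

`O` is a valuation subring of `ℂ` whose maximal ideal contains `p`; it defines the `p`-blocks of
finite groups. A `Dat` is a group `G` with a subgroup `D`, a set `B` of functions on `G` and a set
`b` of functions on `N_G(D)`; `X.IsBrauer p O` says that `G` is finite, `B` is a `p`-block with
defect group `D` and `b` is its Brauer correspondent. `X.ht0 p` and `X.ht0' p` are `Irr₀(B)` and
`Irr₀(b)`. `AMN p X` is the statement of the conjecture for `B`: there is a bijection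
`Irr₀(B) → Irr₀(b)` which commutes with all `σ ∈ ℋ` such that `σ(B) = B`, where `ℋ` consists of the
field automorphisms `σ` of `ℂ` for which there is `e ≥ 0` with `σ(ξ) = ξ ^ (p ^ e)` for all `m`-th
roots of unity `ξ`, `m` the largest divisor of `|G|` prime to `p`. `NearN p C ε X` says that for
every set `S ⊆ ℋ` the numbers of characters in `Irr₀(B)` and in `Irr₀(b)` fixed by `S` differ at
most by the factor `C |D| ^ ε`.

The proof: let `τ i (B)`, `i ∈ ι`, be the different Galois conjugates of a `p`-block `B` with defect
group `D` and Brauer correspondent `b`. The characters of `G ≀ Sym(ι)` induced from the products of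
characters `θ i ∈ τ i (B)` form a block with defect group `D^ι`, which is stable under all field
automorphisms (`wr_brauer'`, `wr_gal`); its Brauer correspondent is formed in the same way from `b`
in `N_G(D) ≀ Sym(ι)`. For every set `S` of automorphisms fixing `B` the number of characters of
height zero fixed by `S` is the `|ι|`-th power of the one for `B`, and the same is true for the
Brauer correspondents (`card_wr`, `card_wr'`). The uniqueness of Brauer correspondents is used
(`brauer_unique`), and that automorphisms in `ℋ` can be extended to larger cyclotomic fields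
(`lift`). The asymptotic form follows with direct powers.
-/

set_option autoImplicit false

namespace Pool.Agent.Results.MP_7f1e7e_al.GaloisStableBlocks

open Pool.Agent.Q259.BW Pool.Agent.Q288.MB Pool.Agent.H494_RB

/-- The set `B` of characters is stable under all field automorphisms of `ℂ`. -/
def GalStable {G : Type} (B : Set (G → ℂ)) : Prop := ∀ σ : ℂ ≃+* ℂ, gal σ B = B

/-- Let `p` be any prime. The following are equivalent: the Alperin–McKay–Navarro conjecture holds
for all `p`-blocks of all finite groups; it holds for all `p`-blocks which are stable under all
field automorphisms; for every `ε > 0` there is `C` such that, for all `p`-blocks `B` stable under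
all field automorphisms, with defect group `D` and Brauer correspondent `b`, and all sets `S ⊆ ℋ`,
the numbers of characters in `Irr₀(B)` and in `Irr₀(b)` fixed by `S` differ at most by the factor
`C |D| ^ ε`. -/
theorem result (p : ℕ) [Fact p.Prime] (O : ValuationSubring ℂ) (hpO : (p : ℂ) ∈ O.nonunits) :
    List.TFAE [∀ X : Dat, X.IsBrauer p O → AMN p X,
      ∀ X : Dat, X.IsBrauer p O → GalStable X.B → AMN p X,
      ∀ ε : ℝ, 0 < ε → ∃ C : ℝ, ∀ X : Dat, X.IsBrauer p O → GalStable X.B → NearN p C ε X] := by
  tfae_have 1 → 2 := fun h X hX _ => h X hX
  tfae_have 2 → 3 := fun h ε hε => ⟨1, fun X hX hs => near_of_amn hX hs (h X hX hs) hε⟩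
  tfae_have 3 → 1 := fun h X hX => by
    obtain ⟨ι, _, τ, hne, hall⟩ := exists_fam hX
    exact amn_of_wr hpO hX hne hall
      (amn_of_near hpO h (wr_brauer' hpO hX hne) (wr_gal hX hne hall))
  tfae_finish

end Pool.Agent.Results.MP_7f1e7e_al.GaloisStableBlocks
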